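import Pool.Agent.Helper501.EP.P_engel_sq

set_option autoImplicit false

/-! Multiplicative filtrations of a ring and descending central series (helper697). -/

namespace Pool.Agent.Y697.EG

open Pool.Agent.Helper501.EP

/-- a multiplicative filtration of a ring by additive subgroups -/
structure Filt {M : Type} [Ring M] (N : ℕ → AddSubgroup M) : Prop where
  one : (1 : M) ∈ N 0
  mul : ∀ (i j : ℕ) (x y : M), x ∈ N i → y ∈ N j → x * y ∈ N (i + j)
  anti : ∀ i : ℕ, N (i + 1) ≤ N i

theorem Filt.le {M : Type} [Ring M] {N : ℕ → AddSubgroup M} (F : Filt N) {i j : ℕ}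
    (h : i ≤ j) : N j ≤ N i := by
  induction j, h using Nat.le_induction with
  | base => exact le_rfl
  | succ n _ ih => exact (F.anti n).trans ih

section

variable {M : Type} [Ring M] {N : ℕ → AddSubgroup M} {Γ : Type} [Group Γ] (m : Γ →* M)

theorem m_inv (g : Γ) : m g⁻¹ * m g = 1 := by
  rw [← map_mul, inv_mul_cancel, map_one]

theorem m_inv' (g : Γ) : m g * m g⁻¹ = 1 := by
  rw [← map_mul, mul_inv_cancel, map_one]

/-- the subgroup of the elements `g` with `m g - 1` in the part `k + 1` of the filtration -/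
def ser (F : Filt N) (h1 : ∀ g : Γ, m g - 1 ∈ N 1) (k : ℕ) : Subgroup Γ where
  carrier := {g | m g - 1 ∈ N (k + 1)}
  one_mem' := by
    show m 1 - 1 ∈ N (k + 1)
    rw [map_one, sub_self]
    exact AddSubgroup.zero_mem _
  mul_mem' := by
    intro a b (ha : m a - 1 ∈ N (k + 1)) (hb : m b - 1 ∈ N (k + 1))
    show m (a * b) - 1 ∈ N (k + 1)
    have e : m (a * b) - 1 = (m a - 1) * (m b - 1) + ((m a - 1) + (m b - 1)) := by
      rw [map_mul]
      noncomm_ring
    rw [e]
    refine AddSubgroup.add_mem _ ?_ (AddSubgroup.add_mem _ ha hb)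
    exact F.le (by omega) (F.mul _ _ _ _ ha hb)
  inv_mem' := by
    intro a (ha : m a - 1 ∈ N (k + 1))
    show m a⁻¹ - 1 ∈ N (k + 1)
    have e : m a⁻¹ - 1 = -(m a - 1) - (m a⁻¹ - 1) * (m a - 1) := by
      have h2 : (m a⁻¹ - 1) * (m a - 1) = m a⁻¹ * m a - m a⁻¹ - m a + 1 := by noncomm_ring
      rw [h2, m_inv]
      abel
    rw [e]
    refine AddSubgroup.sub_mem _ (AddSubgroup.neg_mem _ ha) ?_
    exact F.le (by omega) (F.mul _ _ _ _ (h1 a⁻¹) ha)

theorem mem_ser (F : Filt N) (h1 : ∀ g : Γ, m g - 1 ∈ N 1) (k : ℕ) (g : Γ) :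
    g ∈ ser m F h1 k ↔ m g - 1 ∈ N (k + 1) := Iff.rfl

theorem m_mem0 (F : Filt N) (h1 : ∀ g : Γ, m g - 1 ∈ N 1) (g : Γ) : m g ∈ N 0 := by
  have := AddSubgroup.add_mem _ (F.anti 0 (h1 g)) F.one
  rwa [sub_add_cancel] at this

theorem ser_dcs (F : Filt N) (h1 : ∀ g : Γ, m g - 1 ∈ N 1) :
    Subgroup.IsDescendingCentralSeries (ser m F h1) := by
  refine ⟨?_, ?_⟩
  · rw [eq_top_iff]
    intro g _
    exact h1 g
  · intro x n hx g
    rw [mem_ser] at hx ⊢
    rw [commutatorElement_def]
    have e : m (x * g * x⁻¹ * g⁻¹) - 1 =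
        ((m x - 1) * (m g - 1) - (m g - 1) * (m x - 1)) * (m x⁻¹ * m g⁻¹) := by
      have e1 : ((m x - 1) * (m g - 1) - (m g - 1) * (m x - 1)) =
          m x * m g - m g * m x := by noncomm_ring
      have e2 : (m x * m g - m g * m x) * (m x⁻¹ * m g⁻¹) =
          m x * m g * m x⁻¹ * m g⁻¹ - m g * (m x * m x⁻¹) * m g⁻¹ := by noncomm_ring
      rw [e1, e2, m_inv', mul_one, m_inv', map_mul, map_mul, map_mul]
    rw [e]
    have h2 : (m x - 1) * (m g - 1) ∈ N (n + 1 + 1) := F.mul _ _ _ _ hx (h1 g)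
    have h3 : (m g - 1) * (m x - 1) ∈ N (n + 1 + 1) := by
      have := F.mul _ _ _ _ (h1 g) hx
      rwa [add_comm 1 (n + 1)] at this
    have h4 : m x⁻¹ * m g⁻¹ ∈ N 0 := by
      have := F.mul _ _ _ _ (m_mem0 m F h1 x⁻¹) (m_mem0 m F h1 g⁻¹)
      exact this
    have := F.mul _ _ _ _ (AddSubgroup.sub_mem _ h2 h3) h4
    exact this

theorem ser_anti (F : Filt N) (h1 : ∀ g : Γ, m g - 1 ∈ N 1) (k : ℕ) :
    ser m F h1 (k + 1) ≤ ser m F h1 k := fun _ hg => F.anti _ hg

end

/-- the members of a descending central series are normal -/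
theorem dcs_normal {Γ : Type} [Group Γ] {D : ℕ → Subgroup Γ}
    (hD : Subgroup.IsDescendingCentralSeries D) (ha : ∀ k, D (k + 1) ≤ D k) (k : ℕ) :
    (D k).Normal := by
  refine ⟨fun n hn g => ?_⟩
  have h1 := ha k (hD.2 n k hn g)
  rw [commutatorElement_def] at h1
  have h2 := (D k).mul_mem ((D k).inv_mem h1) hn
  have e : (n * g * n⁻¹ * g⁻¹)⁻¹ * n = g * n * g⁻¹ := by group
  rwa [e] at h2

/-- the quotients by the members of a descending central series are nilpotent -/
theorem dcs_quot {Γ : Type} [Group Γ] {D : ℕ → Subgroup Γ}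
    (hD : Subgroup.IsDescendingCentralSeries D) (k : ℕ) [(D k).Normal] :
    Group.IsNilpotent (Γ ⧸ D k) := by
  rw [Subgroup.nilpotent_iff_finite_descending_central_series]
  refine ⟨k, fun i => (D i).map (QuotientGroup.mk' (D k)), ⟨?_, ?_⟩, ?_⟩
  · show (D 0).map _ = ⊤
    rw [hD.1, ← MonoidHom.range_eq_map, MonoidHom.range_eq_top]
    exact QuotientGroup.mk'_surjective _
  · rintro _ n ⟨x, hx, rfl⟩ g
    obtain ⟨y, rfl⟩ := QuotientGroup.mk'_surjective (D k) g
    have h1 := hD.2 x n hx y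
    rw [commutatorElement_def] at h1 ⊢
    exact ⟨_, h1, by simp only [map_mul, map_inv]⟩
  · exact QuotientGroup.map_mk'_self _

/-- a group with an injective homomorphism to a ring with a filtration reaching `0` is nilpotent -/
theorem nil_of_filt {M : Type} [Ring M] {N : ℕ → AddSubgroup M} (F : Filt N) {Γ : Type}
    [Group Γ] (m : Γ →* M) (hm : ∀ g, m g = 1 → g = 1) (h1 : ∀ g : Γ, m g - 1 ∈ N 1) (n : ℕ)
    (hn : ∀ x ∈ N (n + 1), x = 0) : Group.IsNilpotent Γ := by
  rw [Subgroup.nilpotent_iff_finite_descending_central_series]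
  refine ⟨n, ser m F h1, ser_dcs m F h1, ?_⟩
  rw [eq_bot_iff]
  intro g hg
  rw [mem_ser] at hg
  exact hm g (sub_eq_zero.1 (hn _ hg))

/-- the filtration by the length of words in two letters -/
theorem sq_filt {M : Type} [Ring M] (e e' : M) : Filt (sqN e e') where
  one := sqN_one e e'
  mul := fun _ _ _ _ hx hy => sqN_mul e e' hx hy
  anti := fun i => sqN_anti e e' (Nat.le_succ i)

/-- two unipotent elements `1 + e`, `1 + e'` with `e ^ 2 = e' ^ 2 = 0` and `e e'` nilpotent
generate a nilpotent group -/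
theorem pair_nil {M : Type} [Ring M] {Γ : Type} [Group Γ] (m : Γ →* M)
    (hm : ∀ g, m g = 1 → g = 1) (a b : Γ) (e e' : M) (he : e * e = 0) (he' : e' * e' = 0)
    (ha : m a = 1 + e) (hb : m b = 1 + e') (hn : IsNilpotent (e * e')) :
    Group.IsNilpotent (Subgroup.closure {a, b}) := by
  obtain ⟨r, hr⟩ := hn
  have hr1 : (e * e') ^ (r + 1) = 0 := by rw [pow_succ, hr, zero_mul]
  have F := sq_filt e e'
  have key : ∀ g ∈ Subgroup.closure {a, b}, m g - 1 ∈ sqN e e' 1 ∧ m g⁻¹ - 1 ∈ sqN e e' 1 := by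
    intro g hg
    have gen : ∀ (x : Γ) (d : M), d * d = 0 → d ∈ sqN e e' 1 → m x = 1 + d →
        m x - 1 ∈ sqN e e' 1 ∧ m x⁻¹ - 1 ∈ sqN e e' 1 := by
      intro x d hd hd1 hx
      have h1 : m x⁻¹ = 1 - d := by
        have h2 := m_inv m x
        have h3 : m x * (1 - d) = 1 := by
          rw [hx, mul_sub, mul_one, add_mul, one_mul, hd]
          abel
        calc m x⁻¹ = m x⁻¹ * (m x * (1 - d)) := by rw [h3, mul_one]
          _ = 1 - d := by rw [← mul_assoc, h2, one_mul]
      constructor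
      · rw [hx, add_sub_cancel_left]
        exact hd1
      · rw [h1, sub_sub_cancel_left]
        exact AddSubgroup.neg_mem _ hd1
    induction hg using Subgroup.closure_induction with
    | mem x hx =>
      rcases hx with rfl | hx
      · exact gen _ e he (sqN_e e e') ha
      · rw [Set.mem_singleton_iff] at hx
        subst hx
        exact gen _ e' he' (sqN_e' e e') hb
    | one =>
      rw [inv_one, map_one, sub_self]
      exact ⟨AddSubgroup.zero_mem _, AddSubgroup.zero_mem _⟩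
    | mul x y _ _ hx hy =>
      have em : ∀ x y : Γ, m x - 1 ∈ sqN e e' 1 → m y - 1 ∈ sqN e e' 1 →
          m (x * y) - 1 ∈ sqN e e' 1 := by
        intro x y h1 h2
        have e1 : m (x * y) - 1 = (m x - 1) * (m y - 1) + ((m x - 1) + (m y - 1)) := by
          rw [map_mul]
          noncomm_ring
        rw [e1]
        exact AddSubgroup.add_mem _ (F.le (by omega) (F.mul _ _ _ _ h1 h2))
          (AddSubgroup.add_mem _ h1 h2)
      refine ⟨em x y hx.1 hy.1, ?_⟩
      rw [mul_inv_rev]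
      exact em _ _ hy.2 hx.2
    | inv x _ hx =>
      rw [inv_inv]
      exact ⟨hx.2, hx.1⟩
  refine nil_of_filt F (m.comp (Subgroup.closure {a, b}).subtype) ?_ ?_ (2 * r + 2) ?_
  · intro g hg
    exact Subtype.ext (hm _ hg)
  · intro g
    exact (key _ g.2).1
  · intro x hx
    exact sqN_bot e e' he he' r hr1 hx

/-- `G` is residually (torsion-free nilpotent): every nontrivial element survives in a
torsion-free nilpotent quotient -/
def ResTFN (G : Type) [Group G] : Prop :=
  ∀ g : G, g ≠ 1 → ∃ (N : Subgroup G) (_ : N.Normal), g ∉ N ∧ Group.IsNilpotent (G ⧸ N) ∧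
    ∀ (q : G ⧸ N) (n : ℕ), n ≠ 0 → q ^ n = 1 → q = 1

theorem resTFN {M : Type} [Ring M] {N : ℕ → AddSubgroup M} (F : Filt N) {Γ : Type}
    [Group Γ] (m : Γ →* M) (hm : ∀ g, m g = 1 → g = 1) (h1 : ∀ g : Γ, m g - 1 ∈ N 1)
    (hsep : ∀ x : M, (∀ k, x ∈ N k) → x = 0)
    (hsat : ∀ (k n : ℕ) (x : M), n ≠ 0 → n • x ∈ N k → x ∈ N k) : ResTFN Γ := by
  intro g hg
  obtain ⟨k, hk⟩ : ∃ k, g ∉ ser m F h1 k := by
    by_contra hcon
    push Not at hcon
    apply hg
    apply hm
    apply sub_eq_zero.1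
    apply hsep
    intro k
    exact F.anti k ((mem_ser m F h1 k g).1 (hcon k))
  have hD := ser_dcs m F h1
  have hN : (ser m F h1 k).Normal := dcs_normal hD (ser_anti m F h1) k
  refine ⟨ser m F h1 k, hN, hk, dcs_quot hD k, ?_⟩
  intro q n hn hq
  obtain ⟨x, rfl⟩ := QuotientGroup.mk_surjective q
  have hx : x ^ n ∈ ser m F h1 k := by
    rw [← QuotientGroup.eq_one_iff]
    exact hq
  rw [QuotientGroup.eq_one_iff]
  have key : ∀ j, x ^ n ∈ ser m F h1 j → x ∈ ser m F h1 j := by
    intro j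
    induction j with
    | zero => exact fun _ => h1 x
    | succ j ih =>
      intro hj
      have hxj := ih (ser_anti m F h1 j hj)
      rw [mem_ser] at hj hxj ⊢
      have hp : ∀ i : ℕ, m (x ^ i) - 1 - i • (m x - 1) ∈ N (j + 1 + 1) := by
        intro i
        induction i with
        | zero =>
          rw [pow_zero, map_one, sub_self, zero_smul, sub_zero]
          exact AddSubgroup.zero_mem _
        | succ i ihi =>
          have hxi : m (x ^ i) - 1 ∈ N (j + 1) := by
            have := (ser m F h1 j).pow_mem ((mem_ser m F h1 j x).2 hxj) i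
            exact this
          have e : m (x ^ (i + 1)) - 1 - (i + 1) • (m x - 1) =
              (m (x ^ i) - 1 - i • (m x - 1)) + (m (x ^ i) - 1) * (m x - 1) := by
            rw [pow_succ, map_mul, add_smul, one_smul]
            noncomm_ring
          rw [e]
          exact AddSubgroup.add_mem _ ihi (F.le (by omega) (F.mul _ _ _ _ hxi hxj))
      have h2 : n • (m x - 1) ∈ N (j + 1 + 1) := by
        have := AddSubgroup.sub_mem _ hj (hp n)
        rwa [sub_sub_cancel] at this
      exact hsat _ _ _ hn h2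
  exact key k hx

end Pool.Agent.Y697.EG
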