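import Pool.Agent.Helper501.EP.P_central_order
import Pool.Agent.Y697.EG.Filt

set_option autoImplicit false

/-! Orders from filtrations (helper697; after `Pool.Agent.Helper501.EP.GG_order`), and the
weight filtration of the `4 × 4` matrices. -/

namespace Pool.Agent.Y697.EG

open Pool.Agent.Helper501.EP

theorem ord_of_filt {M : Type} [Ring M] {N : ℕ → AddSubgroup M} (F : Filt N) {Γ : Type}
    [Group Γ] (m : Γ →* M) (hm : ∀ g, m g = 1 → g = 1) (h1 : ∀ g : Γ, m g - 1 ∈ N 1)
    (hsep : ∀ x : M, (∀ k, x ∈ N k) → x = 0) (V : Type) [AddCommGroup V] [Module ℚ V]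
    (c : ℕ → M → V) (hadd : ∀ w x y, c w (x + y) = c w x + c w y)
    (hc : ∀ w t, t ∈ N (w + 1) → (c w t = 0 ↔ t ∈ N (w + 1 + 1))) :
    ∃ L : LinearOrder Γ, ∀ a b c : Γ, L.le a b → L.le (c * a) (c * b) ∧ L.le (a * c) (b * c) := by
  have hc0 : ∀ w t, t ∈ N (w + 1 + 1) → c w t = 0 := fun w t ht => (hc w t (F.anti _ ht)).2 ht
  refine central_order Γ V (fun w g => m g - 1 ∈ N (w + 1)) (fun w g => c w (m g - 1))
    (fun g => h1 g) (fun w g hg => F.anti _ hg) ?_ ?_ ?_ ?_ ?_ ?_
  · intro g hg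
    apply hm
    apply sub_eq_zero.1
    apply hsep
    intro k
    exact F.anti k (hg k)
  · intro w
    rw [map_one, sub_self]
    exact AddSubgroup.zero_mem _
  · intro w g h hg hh
    have e : m (g * h) - 1 = (m g - 1) * (m h - 1) + ((m g - 1) + (m h - 1)) := by
      rw [map_mul]
      noncomm_ring
    have hp : (m g - 1) * (m h - 1) ∈ N (w + 1 + 1) := F.le (by omega) (F.mul _ _ _ _ hg hh)
    rw [e]
    refine ⟨AddSubgroup.add_mem _ (F.anti _ hp) (AddSubgroup.add_mem _ hg hh), ?_⟩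
    rw [hadd, hadd, hc0 _ _ hp, zero_add]
  · intro w g hg
    exact (ser m F h1 w).inv_mem hg
  · intro w g hg
    exact hc w _ hg
  · intro w g h hg
    have e : m (h⁻¹ * g * h) - 1 = (((m h⁻¹ - 1) * (m g - 1) +
      (m g - 1) * (m h - 1)) + (m h⁻¹ - 1) * (m g - 1) * (m h - 1)) + (m g - 1) := by
      have h1 : m (h⁻¹ * g * h) - 1 = m h⁻¹ * (m g - 1) * m h := by
        have h2 : m h⁻¹ * (m g - 1) * m h = m h⁻¹ * m g * m h - m h⁻¹ * m h := by noncomm_ring
        rw [map_mul, map_mul, h2, m_inv]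
      rw [h1]
      noncomm_ring
    have p1 : (m h⁻¹ - 1) * (m g - 1) ∈ N (w + 1 + 1) :=
      F.le (by omega) (F.mul _ _ _ _ (h1 h⁻¹) hg)
    have p2 : (m g - 1) * (m h - 1) ∈ N (w + 1 + 1) := F.mul _ _ _ _ hg (h1 h)
    have p3 : (m h⁻¹ - 1) * (m g - 1) * (m h - 1) ∈ N (w + 1 + 1) :=
      F.le (by omega) (F.mul _ _ _ _ p1 (h1 h))
    have p4 := AddSubgroup.add_mem _ (AddSubgroup.add_mem _ p1 p2) p3
    rw [e]
    refine ⟨AddSubgroup.add_mem _ (F.anti _ p4) hg, ?_⟩
    rw [hadd, hc0 _ _ p4, zero_add]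

/-- the index set -/
abbrev I4 : Type := Fin 3 ⊕ Fin 1

/-- the positions of the basis vectors -/
def pos : I4 → ℕ := Sum.elim (fun i => (i : ℕ)) (fun _ => 1)

theorem pos_le (i : I4) : pos i ≤ 2 := by
  rcases i with i | i
  · have := i.2
    show (i : ℕ) ≤ 2
    omega
  · show 1 ≤ 2
    omega

/-- the matrices which are strictly upper triangular modulo the augmentation ideal -/
def G1 {S : Type} [Ring S] (ε : S →+* ℚ) (t : Matrix I4 I4 S) : Prop :=
  ∀ i j : I4, pos j ≤ pos i → ε (t i j) = 0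

section

variable {S : Type} [Ring S] (ε : S →+* ℚ)

theorem G1_zero : G1 ε (0 : Matrix I4 I4 S) := by
  intro i j _
  rw [Matrix.zero_apply, map_zero]

theorem G1_add {a b : Matrix I4 I4 S} (ha : G1 ε a) (hb : G1 ε b) : G1 ε (a + b) := by
  intro i j hij
  rw [Matrix.add_apply, map_add, ha i j hij, hb i j hij, add_zero]

theorem G1_neg {a : Matrix I4 I4 S} (ha : G1 ε a) : G1 ε (-a) := by
  intro i j hij
  rw [Matrix.neg_apply, map_neg, ha i j hij, neg_zero]

theorem G1_mul {a b : Matrix I4 I4 S} (ha : G1 ε a) (hb : G1 ε b) : G1 ε (a * b) := by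
  intro i j hij
  rw [Matrix.mul_apply, map_sum]
  refine Finset.sum_eq_zero fun l _ => ?_
  rw [map_mul]
  rcases le_or_gt (pos l) (pos i) with h | h
  · rw [ha i l h, zero_mul]
  · rw [hb l j (hij.trans h.le), mul_zero]

theorem G1_nil (hnil : ∀ F : Matrix I4 I4 S, (∀ i j, ε (F i j) = 0) → IsNilpotent F)
    (t : Matrix I4 I4 S) (ht : G1 ε t) : IsNilpotent t := by
  have h3 : IsNilpotent (t ^ 3) := by
    apply hnil
    intro i j
    have e3 : t ^ 3 = t * (t * t) := by rw [pow_succ', pow_two]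
    rw [e3, Matrix.mul_apply, map_sum]
    refine Finset.sum_eq_zero fun l _ => ?_
    rw [map_mul]
    rcases le_or_gt (pos l) (pos i) with h | h
    · rw [ht i l h, zero_mul]
    · rw [Matrix.mul_apply, map_sum]
      have : ∑ k, ε (t l k * t k j) = 0 := by
        refine Finset.sum_eq_zero fun k _ => ?_
        rw [map_mul]
        rcases le_or_gt (pos k) (pos l) with h' | h'
        · rw [ht l k h', zero_mul]
        · have := pos_le j
          rw [ht k j (by omega), mul_zero]
      rw [this, mul_zero]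
  exact IsNilpotent.of_pow h3

variable (δ : S →+* Polynomial S)

/-- the filtration by the weight -/
def N4 (w : ℕ) : AddSubgroup (Matrix I4 I4 S) where
  carrier := {t | ∀ (i j : I4) (k : ℕ), k + pos j < w + pos i → (δ (t i j)).coeff k = 0}
  zero_mem' := by
    intro i j k _
    rw [Matrix.zero_apply, map_zero, Polynomial.coeff_zero]
  add_mem' := by
    intro a b ha hb i j k h
    rw [Matrix.add_apply, map_add, Polynomial.coeff_add, ha i j k h, hb i j k h, add_zero]
  neg_mem' := by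
    intro a ha i j k h
    rw [Matrix.neg_apply, map_neg, Polynomial.coeff_neg, ha i j k h, neg_zero]

theorem N4_filt : Filt (N4 δ) where
  one := by
    intro i j k hk
    have hij : i ≠ j := by
      rintro rfl
      omega
    rw [Matrix.one_apply_ne hij, map_zero, Polynomial.coeff_zero]
  mul := by
    intro w v a b ha hb i j k h
    rw [Matrix.mul_apply, map_sum, Polynomial.finsetSum_coeff]
    refine Finset.sum_eq_zero fun l _ => ?_
    rw [map_mul, Polynomial.coeff_mul]
    refine Finset.sum_eq_zero fun p hp => ?_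
    have hp' := Finset.HasAntidiagonal.mem_antidiagonal.1 hp
    by_cases h1 : p.1 + pos l < w + pos i
    · rw [ha i l p.1 h1, zero_mul]
    · rw [hb l j p.2 (by omega), mul_zero]
  anti := by
    intro w t ht i j k h
    exact ht i j k (by omega)

theorem N4_sep (hinj : Function.Injective δ) (t : Matrix I4 I4 S) (ht : ∀ k, t ∈ N4 δ k) :
    t = 0 := by
  ext i j
  apply hinj
  rw [Matrix.zero_apply, map_zero]
  ext k
  rw [Polynomial.coeff_zero]
  exact ht (k + pos j + 1) i j k (by omega)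

theorem N4_sat [Algebra ℚ S] (k n : ℕ) (t : Matrix I4 I4 S) (hn : n ≠ 0)
    (ht : n • t ∈ N4 δ k) : t ∈ N4 δ k := by
  intro i j l hl
  have h1 : (δ ((n • t) i j)).coeff l = 0 := ht i j l hl
  rw [Matrix.smul_apply, map_nsmul, Polynomial.coeff_smul] at h1
  have h2 : (n : ℚ) • (δ (t i j)).coeff l = 0 := by
    rw [Nat.cast_smul_eq_nsmul]
    exact h1
  rcases smul_eq_zero.1 h2 with h3 | h3
  · exact absurd (by exact_mod_cast h3) hn
  · exact h3

theorem N4_one (h3 : ∀ (z : S) (k : ℕ), ¬ 3 ∣ k → (δ z).coeff k = 0)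
    (h0 : ∀ z : S, ε z = 0 → (δ z).coeff 0 = 0) (t : Matrix I4 I4 S) (ht : G1 ε t) :
    t ∈ N4 δ 1 := by
  intro i j k hk
  have hi := pos_le i
  have hk2 : k ≤ 2 := by omega
  interval_cases k
  · exact h0 _ (ht i j (by omega))
  · exact h3 _ _ (by norm_num)
  · exact h3 _ _ (by norm_num)

/-- the coefficient matrix of weight `w + 1` -/
noncomputable def c4 (w : ℕ) (t : Matrix I4 I4 S) : Matrix I4 I4 S :=
  Matrix.of fun i j => if pos j ≤ w + 1 + pos i then
    (δ (t i j)).coeff (w + 1 + pos i - pos j) else 0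

theorem c4_add (w : ℕ) (a b : Matrix I4 I4 S) : c4 δ w (a + b) = c4 δ w a + c4 δ w b := by
  ext i j
  simp only [c4, Matrix.of_apply, Matrix.add_apply, map_add, Polynomial.coeff_add]
  split_ifs
  · rfl
  · simp

theorem c4_iff (w : ℕ) (t : Matrix I4 I4 S) (h : t ∈ N4 δ (w + 1)) :
    c4 δ w t = 0 ↔ t ∈ N4 δ (w + 1 + 1) := by
  constructor
  · intro h0 i j k hk
    by_cases hk' : k + pos j < w + 1 + pos i
    · exact h i j k hk'
    · have e : k + pos j = w + 1 + pos i := by omega
      have h1 := congrFun (congrFun h0 i) j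
      simp only [c4, Matrix.of_apply, Matrix.zero_apply] at h1
      rw [if_pos (by omega)] at h1
      have e2 : w + 1 + pos i - pos j = k := by omega
      rwa [e2] at h1
  · intro h1
    ext i j
    simp only [c4, Matrix.of_apply, Matrix.zero_apply]
    split_ifs with hij
    · exact h1 i j _ (by omega)
    · rfl

end

end Pool.Agent.Y697.EG
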