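import Pool.Agent.Helper501.EPO.Main
import Pool.Agent.Y697.EG.ExQ
import Pool.Agent.Y697.EG.Ord

set_option autoImplicit false

/-! A three generator residually (torsion-free nilpotent) group generated by Engel elements, with
two commuting Engel elements whose product is not an Engel element (helper697). -/

namespace Pool.Agent.Y697.EG

open Pool.Agent.Helper501.EP

/-- any two conjugates of `a` generate a nilpotent subgroup -/
def PairNil {G : Type} [Group G] (a : G) : Prop :=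
  ∀ x y : G, Group.IsNilpotent (Subgroup.closure {x⁻¹ * a * x, y⁻¹ * a * y})

theorem cm_map {G H : Type} [Group G] [Group H] (φ : G →* H) (a z : G) (k : ℕ) :
    φ ((cm a)^[k] z) = (cm (φ a))^[k] (φ z) := by
  induction k generalizing z with
  | zero => rfl
  | succ k ih =>
    rw [Function.iterate_succ_apply, Function.iterate_succ_apply, ih]
    congr 1
    simp only [cm, map_mul, map_inv]

/-- the blocks of the two commuting matrices of square zero -/
def eA : Matrix (Fin 3) (Fin 3) ℚ := !![0, 1/2, -1/4; 0, 0, 1/2; 0, 0, 0]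
def eB : Matrix (Fin 3) (Fin 1) ℚ := !![-1/2; 0; 0]
def eC : Matrix (Fin 1) (Fin 3) ℚ := !![0, 0, 1/2]
def e0 : Matrix I4 I4 ℚ := Matrix.fromBlocks eA eB eC 0
def f0 : Matrix I4 I4 ℚ := Matrix.fromBlocks eA (-eB) (-eC) 0

theorem eAA : eA * eA + eB * eC = 0 := by
  ext i j
  fin_cases i <;> fin_cases j <;>
    simp [eA, eB, eC, Matrix.mul_apply, Fin.sum_univ_three, Matrix.add_apply] <;> norm_num

theorem eAB : eA * eB = 0 := by
  ext i j
  fin_cases i <;> fin_cases j <;> simp [eA, eB, Matrix.mul_apply, Fin.sum_univ_three]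

theorem eCA : eC * eA = 0 := by
  ext i j
  fin_cases i <;> fin_cases j <;> simp [eA, eC, Matrix.mul_apply, Fin.sum_univ_three]

theorem eCB : eC * eB = 0 := by
  ext i j
  fin_cases i <;> fin_cases j <;> simp [eB, eC, Matrix.mul_apply, Fin.sum_univ_three]

theorem e0_sq : e0 * e0 = 0 := by
  unfold e0
  rw [Matrix.fromBlocks_multiply, eAA, eAB, eCA, eCB]
  simp

theorem f0_sq : f0 * f0 = 0 := by
  unfold f0
  rw [Matrix.fromBlocks_multiply]
  simp only [Matrix.neg_mul, Matrix.mul_neg, neg_neg, eAA, eAB, eCA, eCB, Matrix.mul_zero,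
    Matrix.zero_mul, neg_zero, add_zero, Matrix.fromBlocks_zero]

theorem ef_comm : e0 * f0 = f0 * e0 := by
  unfold e0 f0
  rw [Matrix.fromBlocks_multiply, Matrix.fromBlocks_multiply]
  simp only [Matrix.neg_mul, Matrix.mul_neg, eAB, eCA, eCB, Matrix.mul_zero, Matrix.zero_mul,
    neg_zero, add_zero]

theorem gM_eq : (gM : Matrix (Fin 3) (Fin 3) ℚ) = 1 + eA + eA + (eA * eA + eB * -eC) := by
  ext i j
  fin_cases i <;> fin_cases j <;>
    simp [eA, eB, eC, gM, Matrix.mul_apply, Fin.sum_univ_three, Matrix.add_apply,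
      Matrix.one_apply] <;> norm_num

theorem ef_prod : (1 + e0) * (1 + f0) =
    Matrix.fromBlocks (gM : Matrix (Fin 3) (Fin 3) ℚ) 0 0 1 := by
  have h1 : (1 + e0) * (1 + f0) = 1 + e0 + f0 + e0 * f0 := by noncomm_ring
  rw [h1, ← Matrix.fromBlocks_one, gM_eq]
  unfold e0 f0
  rw [Matrix.fromBlocks_multiply, Matrix.fromBlocks_add, Matrix.fromBlocks_add,
    Matrix.fromBlocks_add]
  simp only [Matrix.mul_neg, eAB, eCA, eCB, Matrix.mul_zero, Matrix.zero_mul,
    neg_zero, add_zero, zero_add, add_neg_cancel]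

theorem e0_up (i j : I4) (h : pos j ≤ pos i) : e0 i j = 0 := by
  rcases i with i | i <;> rcases j with j | j <;> fin_cases i <;> fin_cases j <;>
    simp [pos, e0, eA, eB, eC] at h ⊢

theorem f0_up (i j : I4) (h : pos j ≤ pos i) : f0 i j = 0 := by
  rcases i with i | i <;> rcases j with j | j <;> fin_cases i <;> fin_cases j <;>
    simp [pos, f0, eA, eB, eC] at h ⊢

section

variable {Q : Type} [Ring Q]

/-- the block embedding -/
def blk : Matrix (Fin 3) (Fin 3) Q →* Matrix I4 I4 Q where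
  toFun A := Matrix.fromBlocks A 0 0 1
  map_one' := Matrix.fromBlocks_one
  map_mul' A B := by
    rw [Matrix.fromBlocks_multiply]
    simp

theorem blk_inj : Function.Injective (blk : Matrix (Fin 3) (Fin 3) Q →* Matrix I4 I4 Q) := by
  intro A B h
  have h1 : Matrix.fromBlocks A 0 0 (1 : Matrix (Fin 1) (Fin 1) Q) =
      Matrix.fromBlocks B 0 0 1 := h
  exact (Matrix.fromBlocks_inj.1 h1).1

theorem gM_map [Algebra ℚ Q] : (algebraMap ℚ Q).mapMatrix
    (Matrix.fromBlocks (gM : Matrix (Fin 3) (Fin 3) ℚ) 0 0 1 : Matrix I4 I4 ℚ) =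
      blk (gM : Matrix (Fin 3) (Fin 3) Q) := by
  show (Matrix.fromBlocks (gM : Matrix (Fin 3) (Fin 3) ℚ) 0 0 1).map (algebraMap ℚ Q) =
    Matrix.fromBlocks gM 0 0 1
  rw [Matrix.fromBlocks_map]
  congr 1
  · ext i j
    fin_cases i <;> fin_cases j <;> simp [gM]
  · ext i j
    simp
  · ext i j
    simp
  · ext i j
    fin_cases i
    fin_cases j
    simp

end

theorem main : ∃ (G : Type) (_ : Group G) (u v h : G),
    Subgroup.closure {u, v, h} = ⊤ ∧ u * v = v * u ∧ ResTFN G ∧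
    (∃ L : LinearOrder G, ∀ a b c : G, L.le a b → L.le (c * a) (c * b) ∧ L.le (a * c) (b * c)) ∧
    (∀ a ∈ ({u, v, h} : Set G), IsEngel a ∧ PairNil a) ∧
    ∀ k : ℕ, (cm (u * v))^[k] h ≠ 1 := by
  classical
  obtain ⟨Q, iR, iA, x, y, ε, δ, hx, hy, hεx, hεy, hinj, h3, h0, hnil, hPF⟩ := exists_Q'
  obtain ⟨hgi, hig, hprod, h12, h23, hcc⟩ := gM_gI (S := Q)
  have hnil4 := fun F hF => hnil I4 F hF
  -- the matrices
  obtain ⟨φ, hφ⟩ : ∃ φ : Matrix I4 I4 ℚ →+* Matrix I4 I4 Q,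
    φ = (algebraMap ℚ Q).mapMatrix := ⟨_, rfl⟩
  obtain ⟨e, he⟩ : ∃ e : Matrix I4 I4 Q, e = φ e0 := ⟨_, rfl⟩
  obtain ⟨f, hf⟩ : ∃ f : Matrix I4 I4 Q, f = φ f0 := ⟨_, rfl⟩
  obtain ⟨d, hd⟩ : ∃ d : Matrix I4 I4 Q, d = Matrix.fromBlocks (cwr x y 1) 0 0 0 := ⟨_, rfl⟩
  have ee : e * e = 0 := by rw [he, ← map_mul, e0_sq, map_zero]
  have ff : f * f = 0 := by rw [hf, ← map_mul, f0_sq, map_zero]
  have dd : d * d = 0 := by
    rw [hd, Matrix.fromBlocks_multiply, hcc]
    simp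
  have ef : e * f = f * e := by rw [he, hf, ← map_mul, ← map_mul, ef_comm]
  have efp : (1 + e) * (1 + f) = blk (gM : Matrix (Fin 3) (Fin 3) Q) := by
    have h1 := congrArg φ ef_prod
    rw [map_mul, map_add, map_add, map_one, ← he, ← hf] at h1
    rw [h1, hφ, gM_map]
  have d1 : 1 + d = blk (1 + cwr x y 1) := by
    show 1 + d = Matrix.fromBlocks (1 + cwr x y 1) 0 0 1
    rw [hd, ← Matrix.fromBlocks_one, Matrix.fromBlocks_add]
    simp
  have d1' : 1 - d = blk (1 - cwr x y 1) := by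
    show 1 - d = Matrix.fromBlocks (1 - cwr x y 1) 0 0 1
    rw [hd, ← Matrix.fromBlocks_one, sub_eq_add_neg, Matrix.fromBlocks_neg, Matrix.fromBlocks_add]
    simp [sub_eq_add_neg]
  have εa : ∀ q : ℚ, ε (algebraMap ℚ Q q) = q := by
    intro q
    have := RingHom.ext_rat (ε.comp (algebraMap ℚ Q)) (RingHom.id ℚ)
    exact RingHom.congr_fun this q
  have Ge : G1 ε e := by
    intro i j hij
    have : e i j = algebraMap ℚ Q (e0 i j) := by
      rw [he, hφ]
      rfl
    rw [this, εa, e0_up i j hij]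
  have Gf : G1 ε f := by
    intro i j hij
    have : f i j = algebraMap ℚ Q (f0 i j) := by
      rw [hf, hφ]
      rfl
    rw [this, εa, f0_up i j hij]
  have Gd : G1 ε d := by
    intro i j _
    rw [hd]
    rcases i with i | i <;> rcases j with j | j <;> fin_cases i <;> fin_cases j <;>
      simp [cwr, hεx, hεy]
  -- the units
  have mkU : ∀ t : Matrix I4 I4 Q, t * t = 0 → ∃ u : (Matrix I4 I4 Q)ˣ,
      (u : Matrix I4 I4 Q) = 1 + t ∧ ((u⁻¹ : (Matrix I4 I4 Q)ˣ) : Matrix I4 I4 Q) = 1 - t := by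
    intro t ht
    refine ⟨⟨1 + t, 1 - t, ?_, ?_⟩, rfl, rfl⟩
    · rw [mul_sub, mul_one, add_mul, one_mul, ht]
      abel
    · rw [sub_mul, one_mul, mul_add, mul_one, ht]
      abel
  obtain ⟨u1, hu1, hu1'⟩ := mkU e ee
  obtain ⟨u2, hu2, hu2'⟩ := mkU f ff
  obtain ⟨u3, hu3, hu3'⟩ := mkU d dd
  -- the group
  obtain ⟨S, hS⟩ : ∃ S : Set (Matrix I4 I4 Q)ˣ, S = {u1, u2, u3} := ⟨_, rfl⟩
  have s1 : u1 ∈ S := by rw [hS]; simp
  have s2 : u2 ∈ S := by rw [hS]; simp
  have s3 : u3 ∈ S := by rw [hS]; simp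
  have hSs : ∀ z ∈ S, z = u1 ∨ z = u2 ∨ z = u3 := by
    intro z hz
    rw [hS] at hz
    exact hz
  have key : ∀ g ∈ Subgroup.closure S, G1 ε ((g : Matrix I4 I4 Q) - 1) ∧
      G1 ε (((g⁻¹ : (Matrix I4 I4 Q)ˣ) : Matrix I4 I4 Q) - 1) := by
    intro g hg
    have em : ∀ a b : Matrix I4 I4 Q, G1 ε (a - 1) → G1 ε (b - 1) → G1 ε (a * b - 1) := by
      intro a b ha hb
      have e1 : a * b - 1 = (a - 1) * (b - 1) + ((a - 1) + (b - 1)) := by noncomm_ring
      rw [e1]
      exact G1_add ε (G1_mul ε ha hb) (G1_add ε ha hb)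
    induction hg using Subgroup.closure_induction with
    | mem z hz =>
      rcases hSs z hz with rfl | rfl | rfl
      · rw [hu1, hu1', add_sub_cancel_left, sub_sub_cancel_left]
        exact ⟨Ge, G1_neg ε Ge⟩
      · rw [hu2, hu2', add_sub_cancel_left, sub_sub_cancel_left]
        exact ⟨Gf, G1_neg ε Gf⟩
      · rw [hu3, hu3', add_sub_cancel_left, sub_sub_cancel_left]
        exact ⟨Gd, G1_neg ε Gd⟩
    | one =>
      rw [inv_one, Units.val_one, sub_self]
      exact ⟨G1_zero ε, G1_zero ε⟩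
    | mul a b _ _ ha hb =>
      refine ⟨?_, ?_⟩
      · rw [Units.val_mul]
        exact em _ _ ha.1 hb.1
      · rw [mul_inv_rev, Units.val_mul]
        exact em _ _ hb.2 ha.2
    | inv a _ ha =>
      rw [inv_inv]
      exact ⟨ha.2, ha.1⟩
  let U : Subgroup.closure S →* (Matrix I4 I4 Q)ˣ := (Subgroup.closure S).subtype
  have hU : ∀ g, U g = 1 → g = 1 := fun g hg => Subtype.ext hg
  let m : Subgroup.closure S →* Matrix I4 I4 Q := (Units.coeHom _).comp U
  have hm : ∀ g, m g = 1 → g = 1 := fun g hg => hU g (Units.ext hg)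
  have hF : ∀ g : Subgroup.closure S, G1 ε (m g - 1) := fun g => (key _ g.2).1
  have hmi : ∀ g : Subgroup.closure S,
      (((U g)⁻¹ : (Matrix I4 I4 Q)ˣ) : Matrix I4 I4 Q) = m g⁻¹ := by
    intro g
    show _ = ((U g⁻¹ : (Matrix I4 I4 Q)ˣ) : Matrix I4 I4 Q)
    rw [map_inv]
  have hconj : ∀ (g : Subgroup.closure S) (t : Matrix I4 I4 Q), G1 ε t →
      G1 ε (m g⁻¹ * t * m g) := by
    intro g t ht
    have e1 : m g⁻¹ * t * m g = (m g⁻¹ - 1) * t * (m g - 1) + (m g⁻¹ - 1) * t +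
        t * (m g - 1) + t := by
      noncomm_ring
    rw [e1]
    exact G1_add ε (G1_add ε (G1_add ε (G1_mul ε (G1_mul ε (hF g⁻¹) ht) (hF g))
      (G1_mul ε (hF g⁻¹) ht)) (G1_mul ε ht (hF g))) ht
  have hE : ∀ (a : Subgroup.closure S) (t : Matrix I4 I4 Q), t * t = 0 →
      m a = 1 + t → m a⁻¹ = 1 - t → G1 ε t → IsEngel a ∧ PairNil a := by
    intro a t ht ha hai hGt
    constructor
    · intro z
      have key : IsNilpotent (t * ((((U z)⁻¹ : (Matrix I4 I4 Q)ˣ) :
          Matrix I4 I4 Q) * t * (U z : Matrix I4 I4 Q))) := by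
        apply G1_nil ε hnil4
        rw [hmi]
        exact G1_mul ε hGt (hconj z t hGt)
      obtain ⟨k, hk⟩ := engel_sq (U a) (U z) t ht ha (by rw [hmi]; exact hai) key
      refine ⟨k, hU _ ?_⟩
      rw [cm_map]
      exact hk
    · intro z w
      have sq : ∀ g : Subgroup.closure S, (m g⁻¹ * t * m g) * (m g⁻¹ * t * m g) = 0 := by
        intro g
        have e1 : (m g⁻¹ * t * m g) * (m g⁻¹ * t * m g) =
            m g⁻¹ * (t * (m g * m g⁻¹) * t) * m g := by noncomm_ring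
        rw [e1, m_inv', mul_one, ht, mul_zero, zero_mul]
      have eq : ∀ g : Subgroup.closure S, m (g⁻¹ * a * g) = 1 + m g⁻¹ * t * m g := by
        intro g
        rw [map_mul, map_mul, ha, mul_add, mul_one, add_mul, m_inv]
      exact pair_nil m hm _ _ _ _ (sq z) (sq w) (eq z) (eq w)
        (G1_nil ε hnil4 _ (G1_mul ε (hconj z t hGt) (hconj w t hGt)))
  have hcoe : ∀ (a : Subgroup.closure S) (u : (Matrix I4 I4 Q)ˣ), U a = u →
      m a⁻¹ = ((u⁻¹ : (Matrix I4 I4 Q)ˣ) : Matrix I4 I4 Q) := by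
    intro a u hau
    rw [← hmi, hau]
  have hcl1 : u1 ∈ Subgroup.closure S := Subgroup.subset_closure s1
  have hcl2 : u2 ∈ Subgroup.closure S := Subgroup.subset_closure s2
  have hcl3 : u3 ∈ Subgroup.closure S := Subgroup.subset_closure s3
  refine ⟨Subgroup.closure S, inferInstance, ⟨u1, hcl1⟩, ⟨u2, hcl2⟩, ⟨u3, hcl3⟩,
    ?_, ?_, ?_, ?_, ?_, ?_⟩
  · have h1 := Subgroup.closure_closure_coe_preimage (k := S)
    rw [eq_top_iff, ← h1]
    apply Subgroup.closure_mono
    intro g hg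
    rcases hSs g hg with h2 | h2 | h2
    · left
      exact Subtype.ext h2
    · right
      left
      exact Subtype.ext h2
    · right
      right
      exact Subtype.ext h2
  · apply Subtype.ext
    apply Units.ext
    show (u1 : Matrix I4 I4 Q) * (u2 : Matrix I4 I4 Q) =
      (u2 : Matrix I4 I4 Q) * (u1 : Matrix I4 I4 Q)
    rw [hu1, hu2]
    have e1 : (1 + e) * (1 + f) = 1 + e + f + e * f := by noncomm_ring
    have e2 : (1 + f) * (1 + e) = 1 + e + f + f * e := by noncomm_ring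
    rw [e1, e2, ef]
  · refine resTFN (N4_filt δ) m hm (fun g => N4_one ε δ h3 h0 _ (hF g))
      (N4_sep δ hinj) (fun k n x hn hx => N4_sat δ k n x hn hx)
  · exact ord_of_filt (N4_filt δ) m hm (fun g => N4_one ε δ h3 h0 _ (hF g)) (N4_sep δ hinj)
      (Matrix I4 I4 Q) (c4 δ) (c4_add δ) (c4_iff δ)
  · intro a ha
    rcases ha with rfl | rfl | ha
    · exact hE _ e ee hu1 ((hcoe _ _ rfl).trans hu1') Ge
    · exact hE _ f ff hu2 ((hcoe _ _ rfl).trans hu2') Gf
    · rw [Set.mem_singleton_iff] at ha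
      subst ha
      exact hE _ d dd hu3 ((hcoe _ _ rfl).trans hu3') Gd
  · intro k hk
    have hk' := congrArg U hk
    rw [cm_map, map_one, map_mul] at hk'
    let g3 : (Matrix (Fin 3) (Fin 3) Q)ˣ := ⟨gM, gI, hgi, hig⟩
    let h3 : (Matrix (Fin 3) (Fin 3) Q)ˣ := ⟨1 + cwr x y 1, 1 - cwr x y 1, by
      rw [mul_sub, mul_one, add_mul, one_mul, hcc]; abel, by
      rw [sub_mul, one_mul, mul_add, mul_one, hcc]; abel⟩
    have b1 : u1 * u2 = Units.map blk g3 := by
      apply Units.ext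
      show (u1 : Matrix I4 I4 Q) * (u2 : Matrix I4 I4 Q) = blk gM
      rw [hu1, hu2, efp]
    have b2 : u3 = Units.map blk h3 := by
      apply Units.ext
      show (u3 : Matrix I4 I4 Q) = blk (1 + cwr x y 1)
      rw [hu3, d1]
    have hk2 : (cm (u1 * u2))^[k] u3 = 1 := hk'
    rw [b1, b2, ← cm_map] at hk2
    have hk3 : (cm g3)^[k] h3 = 1 := by
      apply Units.map_injective (f := blk) blk_inj
      rw [hk2, map_one]
    exact non_engel x y δ hx hy hPF g3 h3 rfl rfl rfl rfl k hk3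

end Pool.Agent.Y697.EG
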